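import Pool.Agent.H80.JD.Basic

set_option autoImplicit false

namespace Pool.Agent.H6.JD

open Finset Filter Topology Pool.Agent.H80.JD

theorem rho : T_RHO := by
  intro κ J hκ hJ
  have hsq : Tendsto (fun n : ℕ => κ * Real.sqrt n) atTop atTop :=
    (Real.tendsto_sqrt_atTop.comp tendsto_natCast_atTop_atTop).const_mul_atTop hκ
  have hM : Tendsto (fun n : ℕ => ⌈1024 * κ ^ 2 * n⌉₊) atTop atTop :=
    tendsto_nat_ceil_atTop.comp
      ((tendsto_natCast_atTop_atTop (R := ℝ)).const_mul_atTop (by positivity))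
  have hpow : Tendsto (fun n : ℕ => 2 * (9 / 10 : ℝ) ^ ⌈1024 * κ ^ 2 * n⌉₊) atTop (𝓝 0) := by
    have h1 := ((tendsto_pow_atTop_nhds_zero_of_lt_one (r := (9 / 10 : ℝ)) (by norm_num)
      (by norm_num)).comp hM).const_mul 2
    simpa using h1
  have hJpos : (0 : ℝ) < (1 / 16) ^ J := by positivity
  filter_upwards [hsq.eventually_ge_atTop 2, hpow.eventually (gt_mem_nhds hJpos)] with n h2 h3
  have hs : 0 < κ * Real.sqrt n := by linarith
  have hroot : 32 * (κ * Real.sqrt n) ≤ Real.sqrt (⌈1024 * κ ^ 2 * n⌉₊ : ℕ) := by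
    have h4 : 1024 * κ ^ 2 * n ≤ (⌈1024 * κ ^ 2 * n⌉₊ : ℝ) := Nat.le_ceil _
    refine Real.le_sqrt_of_sq_le ?_
    refine le_trans (le_of_eq ?_) h4
    rw [mul_pow, mul_pow, Real.sq_sqrt (Nat.cast_nonneg n)]
    ring
  have hrt : 0 < Real.sqrt (⌈1024 * κ ^ 2 * n⌉₊ : ℕ) := lt_of_lt_of_le (by linarith) hroot
  have hle : (κ * Real.sqrt n / 2 + 1) * (2 / Real.sqrt (⌈1024 * κ ^ 2 * n⌉₊ : ℕ)) ≤ 1 / 16 := by
    rw [mul_div_assoc', div_le_iff₀ hrt]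
    nlinarith
  have hnn : 0 ≤ (κ * Real.sqrt n / 2 + 1) * (2 / Real.sqrt (⌈1024 * κ ^ 2 * n⌉₊ : ℕ)) := by
    positivity
  refine ⟨hle.trans (by norm_num), ?_⟩
  have h5 := pow_le_pow_left₀ hnn hle J
  have h6 : (2 : ℝ) ≤ 2 ^ J := by
    calc (2 : ℝ) = 2 ^ 1 := by norm_num
      _ ≤ 2 ^ J := pow_le_pow_right₀ (by norm_num) hJ
  have h7 : (1 / 8 : ℝ) ^ J = 2 ^ J * (1 / 16) ^ J := by
    rw [← mul_pow]
    norm_num
  rw [h7]
  nlinarith

end Pool.Agent.H6.JD
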